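import Pool.Agent.Lib.FAC.Blue

/-! Two residue classes on which the normalised values are known. -/

open Finset Filter
open scoped Nat Topology

set_option linter.unusedVariables false

noncomputable section

namespace Pool.Agent.Lib.FAC

namespace CLASS

theorem pick (C n p : ℕ) (δ : ℝ) (hδ : 0 < δ) :
    ∃ y : ℕ, 0 < y ∧ p ≤ y ∧ Real.exp (C * (((n : ℝ) + 1) / y)) - 1 ≤ δ := by
  have h1 : Tendsto (fun y : ℕ => ((n : ℝ) + 1) / y) atTop (𝓝 0) :=
    tendsto_const_div_atTop_nhds_zero_nat _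
  have h2 : Tendsto (fun y : ℕ => Real.exp (C * (((n : ℝ) + 1) / y)) - 1) atTop
      (𝓝 (Real.exp (C * 0) - 1)) :=
    ((Real.continuous_exp.tendsto _).comp (h1.const_mul _)).sub_const 1
  have h3 : Real.exp ((C : ℝ) * 0) - 1 < δ := by simpa using hδ
  obtain ⟨y, hy1, hy2⟩ := ((h2.eventually (gt_mem_nhds h3)).and (eventually_ge_atTop (p + 1))).exists
  exact ⟨y, by omega, by omega, hy1.le⟩

theorem close (hZ : St_SIZE) {g : ℕ → ℤ} {k C : ℕ} (hg : Good g k C) (m : ℕ) (hm : 1 ≤ m)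
    (t δ : ℝ) (h : S m ≤ t) (hδ : Real.exp (C * t) - 1 ≤ δ) : |G g k m - 1| ≤ δ := by
  have h1 := (hZ g k C hg).2 m hm
  have h2 : Real.exp (C * S m) ≤ Real.exp (C * t) :=
    Real.exp_le_exp.2 (mul_le_mul_of_nonneg_left h (Nat.cast_nonneg _))
  linarith

theorem G_mul' {g : ℕ → ℤ} {k C : ℕ} (hg : Good g k C) (m n : ℕ) (h : m.Coprime n) :
    G g k (m * n) = G g k m * G g k n := by
  unfold G
  rw [hg.mul m n h]
  push_cast
  rw [mul_pow, mul_div_mul_comm]

theorem G_prime_le {g : ℕ → ℤ} {k C : ℕ} (hg : Good g k C) (p : ℕ) (hp : p.Prime) :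
    |G g k p| ≤ 1 + C := by
  have h1 := hg.near p 1 hp le_rfl
  rw [pow_one, mul_one] at h1
  have h2 : (C : ℝ) / p ≤ C :=
    div_le_self (Nat.cast_nonneg _) (by exact_mod_cast hp.one_le)
  have h3 := abs_le.1 (h1.trans h2)
  unfold G
  rw [abs_le]
  constructor <;> linarith [h3.1, h3.2]

theorem same (p a b x : ℕ) (hp : p.Prime) (ha : a < p) (hb : b < p) (h1 : p ∣ a * x + 1)
    (h2 : p ∣ b * x + 1) : a = b := by
  have hx : Nat.Coprime p x := by
    rw [hp.coprime_iff_not_dvd]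
    intro h
    have h3 : p ∣ b * x := Dvd.dvd.mul_left h b
    exact hp.one_lt.ne' (Nat.dvd_one.1 ((Nat.dvd_add_right h3).1 h2))
  have h4 : a * x + 1 ≡ b * x + 1 [MOD p] :=
    ((Nat.modEq_zero_iff_dvd).2 h1).trans ((Nat.modEq_zero_iff_dvd).2 h2).symm
  have h5 : a * x ≡ b * x [MOD p] := Nat.ModEq.add_right_cancel' 1 h4
  exact (Nat.ModEq.cancel_right_of_coprime hx h5).eq_of_lt_of_lt ha hb

theorem root (p a : ℕ) (hp : p.Prime) (ha : ¬ p ∣ a) :
    ∃ c s : ℕ, a * c + 1 = p * (1 + p * s) := by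
  have hco : Nat.Coprime a (p ^ 2) :=
    Nat.Coprime.pow_right 2 ((hp.coprime_iff_not_dvd.2 ha).symm)
  have hp2 : p ^ 2 ≠ 0 := pow_ne_zero 2 hp.ne_zero
  obtain ⟨c, hc⟩ := Nat.exists_mul_mod_eq_of_coprime (p - 1) hco hp2
  have hlt : p - 1 < p ^ 2 := by
    have := hp.two_le
    have h2 : p ≤ p ^ 2 := Nat.le_self_pow (by norm_num) p
    omega
  have hc' : a * c % p ^ 2 = p - 1 := by
    have h := hc.2
    rwa [Nat.mod_eq_of_lt hlt] at h
  refine ⟨c, a * c / p ^ 2, ?_⟩
  have h3 := Nat.mod_add_div (a * c) (p ^ 2)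
  rw [hc'] at h3
  have h4 : p * (1 + p * (a * c / p ^ 2)) = p + p ^ 2 * (a * c / p ^ 2) := by ring
  have := hp.one_le
  rw [h4]
  omega

theorem exR (p y : ℕ) (hp : p.Prime) : ∃ R : ℕ, 0 < R ∧ ¬ p ∣ R ∧
    ∀ q, q.Prime → q ≤ y → q ≠ p → q ∣ R := by
  refine ⟨∏ q ∈ (Icc 1 y).filter (fun q => ¬ p ∣ q), q, ?_, ?_, ?_⟩
  · exact prod_pos fun q hq => (mem_Icc.1 (mem_filter.1 hq).1).1
  · intro h
    obtain ⟨q, hq, hpq⟩ := (Prime.dvd_finsetProd_iff hp.prime _).1 h
    exact (mem_filter.1 hq).2 hpq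
  · intro q hq hqy hne
    refine dvd_prod_of_mem (fun q => q) (mem_filter.2 ⟨mem_Icc.2 ⟨hq.one_le, hqy⟩, ?_⟩)
    intro h
    exact hne ((Nat.prime_dvd_prime_iff_eq hp hq).1 h).symm

end CLASS

open CLASS in
theorem st_CLASS (hZ : St_SIZE) (hR : St_ROUGH) : St_CLASS := by
  intro g k C D ε hg hD hε
  have hC : (0 : ℝ) < 1 + C := by positivity
  constructor
  · obtain ⟨y, hy0, -, hy⟩ := pick C D.divisors.card 0 ε hε
    have h1 := hR D.divisors (fun _ => 1) (fun v => D / v * y !) y hy0 (by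
      intro v hv
      exact ⟨one_pos, Nat.coprime_one_left _, fun q hq hqy =>
        Dvd.dvd.mul_left (Nat.dvd_factorial hq.pos hqy) _⟩)
    have ht : Tendsto (fun j : ℕ => y ! * j) atTop atTop :=
      tendsto_atTop_mono (fun j => Nat.le_mul_of_pos_left j (Nat.factorial_pos y)) tendsto_id
    refine ht.frequently (h1.mono fun j hj v hv => ?_)
    have h2 : D / v * (y ! * j) + 1 = 1 + D / v * y ! * j := by ring
    rw [h2]
    exact close hZ hg _ (by omega) _ _ (hj v hv) hy
  · intro p v0 hp hDp hv0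
    obtain ⟨y, hy0, -, hy⟩ := pick C D.divisors.card p (ε / (1 + C)) (div_pos hε hC)
    obtain ⟨R, hR0, hpR, hqR⟩ := exR p y hp
    have hlt : ∀ v, D / v < p := fun v => lt_of_le_of_lt (Nat.div_le_self D v) hDp
    have hpos : ∀ v ∈ D.divisors, 0 < D / v := fun v hv =>
      Nat.div_pos (Nat.divisor_le hv) (Nat.pos_of_mem_divisors hv)
    have ha0 : ¬ p ∣ D / v0 * R := by
      intro h
      rcases (Nat.Prime.dvd_mul hp).1 h with h | h
      · exact absurd (Nat.le_of_dvd (hpos v0 hv0) h) (not_le.2 (hlt v0))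
      · exact hpR h
    obtain ⟨c, s, hcs⟩ := root p (D / v0 * R) hp ha0
    have hco : ∀ a : ℕ, Nat.Coprime (a * c + 1) a := by
      intro a
      simp
    have h1 := hR D.divisors (fun v => if v = v0 then 1 + p * s else D / v * R * c + 1)
      (fun v => if v = v0 then D / v0 * R * p else D / v * R * p ^ 2) y hy0 (by
      intro v hv
      by_cases h : v = v0
      · simp only [h, if_true]
        refine ⟨by omega, Nat.Coprime.mul_right ?_ (by simp), fun q hq hqy => ?_⟩
        · exact Nat.Coprime.coprime_dvd_left ⟨p, by rw [hcs]; ring⟩ (hco (D / v0 * R))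
        · by_cases hqp : q = p
          · rw [hqp]; exact Dvd.intro_left _ rfl
          · exact Dvd.dvd.mul_right (Dvd.dvd.mul_left (hqR q hq hqy hqp) _) _
      · simp only [h, if_false]
        refine ⟨by omega, Nat.Coprime.mul_right (hco _) (Nat.Coprime.pow_right 2 ?_),
          fun q hq hqy => ?_⟩
        · refine (hp.coprime_iff_not_dvd.2 fun hd => h ?_).symm
          have h2 : p ∣ D / v0 * (R * c) + 1 := ⟨1 + p * s, by rw [← hcs]; ring⟩
          have h3 : p ∣ D / v * (R * c) + 1 := by rwa [← mul_assoc]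
          have h4 := same p _ _ _ hp (hlt v) (hlt v0) h3 h2
          have h5 := Nat.mul_div_cancel' (Nat.dvd_of_mem_divisors hv)
          have h6 := Nat.mul_div_cancel' (Nat.dvd_of_mem_divisors hv0)
          rw [h4] at h5
          exact Nat.eq_of_mul_eq_mul_right (hpos v0 hv0) (h5.trans h6.symm)
        · by_cases hqp : q = p
          · rw [hqp]; exact Dvd.dvd.mul_left (dvd_pow_self p (by norm_num)) _
          · exact Dvd.dvd.mul_right (Dvd.dvd.mul_left (hqR q hq hqy hqp) _) _)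
    have ht : Tendsto (fun j : ℕ => R * (c + p ^ 2 * j)) atTop atTop := by
      refine tendsto_atTop_mono (fun j => ?_) tendsto_id
      have h2 : j ≤ p ^ 2 * j := Nat.le_mul_of_pos_left j (pow_pos hp.pos 2)
      have h3 : c + p ^ 2 * j ≤ R * (c + p ^ 2 * j) := Nat.le_mul_of_pos_left _ hR0
      simp only [id]
      omega
    refine ht.frequently (h1.mono fun j hj v hv => ?_)
    have hjv := hj v hv
    have hεle : ε / (1 + C) ≤ ε :=
      div_le_self hε.le (by linarith [(Nat.cast_nonneg C : (0 : ℝ) ≤ C)])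
    by_cases h : v = v0
    · simp only [h, if_true] at hjv ⊢
      have h2 : D / v0 * (R * (c + p ^ 2 * j)) + 1 = p * (1 + p * s + D / v0 * R * p * j) := by
        have : D / v0 * (R * (c + p ^ 2 * j)) + 1 =
            (D / v0 * R * c + 1) + D / v0 * R * p ^ 2 * j := by ring
        rw [this, hcs]; ring
      have h3 : Nat.Coprime p (1 + p * s + D / v0 * R * p * j) := by
        have : 1 + p * s + D / v0 * R * p * j = 1 + p * (s + D / v0 * R * j) := by ring
        rw [this]; simp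
      rw [h2, G_mul' hg _ _ h3]
      have h4 := close hZ hg _ (by omega) _ _ hjv hy
      have h5 : G g k p * G g k (1 + p * s + D / v0 * R * p * j) - G g k p =
          G g k p * (G g k (1 + p * s + D / v0 * R * p * j) - 1) := by ring
      rw [h5, abs_mul]
      calc _ ≤ (1 + C) * (ε / (1 + C)) :=
            mul_le_mul (G_prime_le hg p hp) h4 (abs_nonneg _) hC.le
        _ = ε := by field_simp
    · simp only [h, if_false] at hjv ⊢
      have h2 : D / v * (R * (c + p ^ 2 * j)) + 1 =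
          D / v * R * c + 1 + D / v * R * p ^ 2 * j := by ring
      rw [h2]
      exact (close hZ hg _ (by omega) _ _ hjv hy).trans hεle

end Pool.Agent.Lib.FAC
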