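import Pool.Agent.Lib.FAC.Blue

/-! Expansion of the normalised tails along a window and regrouping by rays. -/

open Finset Filter Polynomial
open scoped Nat Topology

noncomputable section

namespace Pool.Agent.Lib.FAC

open Pool.Agent.Lib.ESC (Comb)

namespace EXP

theorem expand {g : ℕ → ℤ} {P : ℤ[X]} {c : ℕ} {r : ℕ → ℝ} (hB : Base P) (h : Tail g P c r)
    (M s L : ℕ) (hs : s ≤ L) :
    r (M + s) = ∑ t ∈ Ioc s L, (g (M + t) : ℝ) / ∏ i ∈ Ioc s t, ev P (M + i) +
      r (M + L) / ∏ i ∈ Ioc s L, ev P (M + i) := by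
  induction L, hs using Nat.le_induction with
  | base => simp
  | succ L hL ih =>
    have h2 : r (M + L) * ev P (M + (L + 1)) = g (M + (L + 1)) + r (M + (L + 1)) := h.eq (M + L)
    have hb : ev P (M + (L + 1)) ≠ 0 := hB.2 _ (by omega)
    rw [Finset.sum_Ioc_succ_top hL, Finset.prod_Ioc_succ_top hL, ih, add_assoc, ← add_div, ← h2,
      mul_div_mul_right _ _ hb]

theorem split {g : ℕ → ℤ} {k C : ℕ} (hg : Good g k C) (D u t w : ℕ) (hu : 0 < u) (ht : 0 < t)
    (hd : u * t ^ 2 ∣ D) : g (D / u * w + t) = g t * g (D / (u * t) * w + 1) := by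
  obtain ⟨e, rfl⟩ := hd
  have h1 : u * t ^ 2 * e / u = t * (t * e) := by
    rw [mul_assoc, Nat.mul_div_cancel_left _ hu]; ring
  have h2 : u * t ^ 2 * e / (u * t) = t * e := by
    have : u * t ^ 2 * e = u * t * (t * e) := by ring
    rw [this, Nat.mul_div_cancel_left _ (Nat.mul_pos hu ht)]
  have h3 : t * (t * e) * w + t = t * (t * (e * w) + 1) := by ring
  have h4 : t * e * w + 1 = t * (e * w) + 1 := by ring
  rw [h1, h2, h3, h4, hg.mul _ _ (by simp)]

end EXP

theorem st_EXP : St_EXP := by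
  intro g k C P c r hg hB h Y D U _ hC d L γ w hdL hL
  have hD : D ≠ 0 := by have := hC.big; omega
  have key : ∀ u ∈ U, ∑ s ∈ range (d + 1), (γ u s : ℝ) * r (D / u * w + s) =
      ∑ v ∈ D.divisors, (∑ t ∈ Icc 1 L with u * t = v, ∑ s ∈ range (d + 1) with s < t,
          (g t : ℝ) * γ u s / den P D u s t w) * g (D / v * w + 1) +
        ∑ s ∈ range (d + 1), γ u s * (r (D / u * w + L) / den P D u s L w) := by
    intro u hu
    have hdv : ∀ t ∈ Icc 1 L, u * t ^ 2 ∣ D := fun t ht =>
      hC.dvd u hu t (mem_Icc.1 ht).1 ((mem_Icc.1 ht).2.trans hL)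
    have hmap : ∀ t ∈ Icc 1 L, u * t ∈ D.divisors := fun t ht =>
      Nat.mem_divisors.2 ⟨Dvd.dvd.trans ⟨t, by ring⟩ (hdv t ht), hD⟩
    have hs : ∑ v ∈ D.divisors, (∑ t ∈ Icc 1 L with u * t = v, ∑ s ∈ range (d + 1) with s < t,
          (g t : ℝ) * γ u s / den P D u s t w) * g (D / v * w + 1) =
        ∑ t ∈ Icc 1 L, (∑ s ∈ range (d + 1) with s < t,
          (g t : ℝ) * γ u s / den P D u s t w) * g (D / (u * t) * w + 1) := by
      rw [← Finset.sum_fiberwise_of_maps_to hmap]
      refine Finset.sum_congr rfl fun v _ => ?_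
      rw [Finset.sum_mul]
      refine Finset.sum_congr rfl fun t ht => ?_
      rw [(mem_filter.1 ht).2]
    have hsw : ∑ t ∈ Icc 1 L, (∑ s ∈ range (d + 1) with s < t,
          (g t : ℝ) * γ u s / den P D u s t w) * g (D / (u * t) * w + 1) =
        ∑ s ∈ range (d + 1), ∑ t ∈ Ioc s L,
          (g t : ℝ) * γ u s / den P D u s t w * g (D / (u * t) * w + 1) := by
      simp only [Finset.sum_mul]
      refine Finset.sum_comm' fun t s => ?_
      simp only [mem_Icc, mem_filter, mem_range, mem_Ioc]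
      omega
    rw [hs, hsw, ← Finset.sum_add_distrib]
    refine Finset.sum_congr rfl fun s hs' => ?_
    have hsL : s ≤ L := by
      have := mem_range.1 hs'
      omega
    rw [EXP.expand hB h (D / u * w) s L hsL, mul_add, Finset.mul_sum]
    refine congrArg (· + _) (Finset.sum_congr rfl fun t ht => ?_)
    have ht' : t ∈ Icc 1 L := by
      have := mem_Ioc.1 ht
      rw [mem_Icc]
      omega
    have hu0 : 0 < u := by
      rcases Nat.eq_zero_or_pos u with h0 | h0
      · have := hdv t ht'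
        rw [h0, zero_mul, zero_dvd_iff] at this
        exact absurd this hD
      · exact h0
    rw [EXP.split hg D u t w hu0 (mem_Icc.1 ht').1 (hdv t ht'), den]
    push_cast
    ring
  rw [Finset.sum_congr rfl key, Finset.sum_add_distrib, Finset.sum_comm]
  refine congrArg (· + _) (Finset.sum_congr rfl fun v _ => ?_)
  rw [eta, Finset.sum_mul]

end Pool.Agent.Lib.FAC
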