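import Pool.Agent.Lib.FAC.Blue

/-! The leading order of the coefficients on the rays. -/

open Finset Filter Polynomial
open scoped Nat Topology

set_option linter.unusedVariables false

noncomputable section

namespace Pool.Agent.Lib.FAC

open Pool.Agent.Lib.ESC (Comb)

namespace LEAD

theorem ev_sum {ι : Type*} (s : Finset ι) (F : ι → ℤ[X]) (w : ℕ) :
    ev (∑ i ∈ s, F i) w = ∑ i ∈ s, ev (F i) w := by
  simp only [ev, eval_finsetSum, Int.cast_sum]

theorem ev_C_mul (a : ℤ) (F : ℤ[X]) (w : ℕ) : ev (C a * F) w = a * ev F w := by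
  simp only [ev, eval_mul, eval_C, Int.cast_mul]

/-- The numerator of the coefficient of a ray. -/
def NN (g : ℕ → ℤ) (U : Finset ℕ) (d L : ℕ) (γ : ℕ → ℕ → ℤ) (Num : ℕ → ℕ → ℕ → ℤ[X]) (v : ℕ) :
    ℤ[X] :=
  ∑ u ∈ U, ∑ t ∈ Icc 1 L with u * t = v, ∑ s ∈ range (d + 1) with s < t,
    C (g t * γ u s) * Num u s t

theorem ray {Y D : ℕ} {U : Finset ℕ} (hU : Comb Y D U) {L r0 u0 u t : ℕ} (hr : r0.Prime)
    (hY : Y < r0) (hL : L < 2 * r0) (hu : u ∈ U) (ht : t ∈ Icc 1 L) (h : u * t = u0 * r0) :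
    t = r0 ∧ u = u0 := by
  have h1 : r0 ∣ u * t := h ▸ Dvd.intro_left _ rfl
  rw [mem_Icc] at ht
  have h2 : r0 ∣ t := by
    rcases (Nat.Prime.dvd_mul hr).1 h1 with h3 | h3
    · have := hU.smooth u hu r0 hr h3
      omega
    · exact h3
  have h3 : t = r0 := Nat.eq_of_dvd_of_lt_two_mul (by omega) h2 (by omega)
  refine ⟨h3, ?_⟩
  rw [h3] at h
  exact Nat.eq_of_mul_eq_mul_right hr.pos h

end LEAD

open LEAD in
theorem st_LEAD (hR : St_RAT) (hP : St_POLY) : St_LEAD := by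
  intro g P Y D U d L r0 γ hB hU hr hY hd hrL hL2 hL3 hg hγ
  classical
  have hD : 0 < D := by have := hU.big; omega
  have hr2 := hr.two_le
  obtain ⟨Q, Num, hQ, hN⟩ := hP P D L hB hD
  have hUD : ∀ u ∈ U, u ∈ D.divisors := fun u hu => by
    have := hU.dvd u hu 1 le_rfl (by omega)
    exact Nat.mem_divisors.2 ⟨by simpa using this, hD.ne'⟩
  have heta : ∀ v w, eta g P D U d L γ v w = ev (NN g U d L γ Num v) w / ev Q w := by
    intro v w
    simp only [eta, NN, ev_sum, sum_div, ev_C_mul]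
    refine sum_congr rfl fun u hu => sum_congr rfl fun t ht => sum_congr rfl fun s hs => ?_
    have ht' := (mem_Icc.1 (mem_filter.1 ht).1).2
    have hs' := (mem_filter.1 hs).2
    have := (hN u (hUD u hu) s t hs'.le ht').2.2 w
    rw [mul_div_assoc _ (ev (Num u s t) w), ← this]
    push_cast
    ring
  have hdeg : ∀ v, (NN g U d L γ Num v).natDegree ≤ Q.natDegree := by
    intro v
    refine natDegree_sum_le_of_forall_le _ _ fun u hu =>
      natDegree_sum_le_of_forall_le _ _ fun t ht =>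
        natDegree_sum_le_of_forall_le _ _ fun s hs => ?_
    have ht' := (mem_Icc.1 (mem_filter.1 ht).1).2
    have hs' := (mem_filter.1 hs).2
    have := (hN u (hUD u hu) s t hs'.le ht').2.1
    exact (natDegree_C_mul_le _ _).trans (by omega)
  obtain ⟨u0, hu0, s0, hs0, hγ0⟩ := hγ
  obtain ⟨s1, hs1, hmax⟩ := exists_max_image ((range (d + 1)).filter fun s => γ u0 s ≠ 0) id
    ⟨s0, mem_filter.2 ⟨mem_range.2 (by omega), hγ0⟩⟩
  have hs1d : s1 < d + 1 := mem_range.1 (mem_filter.1 hs1).1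
  have hγ1 : γ u0 s1 ≠ 0 := (mem_filter.1 hs1).2
  have hN1 := hN u0 (hUD u0 hu0) s1 r0 (by omega) hrL
  have hv1 : u0 * r0 ∈ D.divisors := by
    have := hU.dvd u0 hu0 r0 (by omega) (by omega)
    exact Nat.mem_divisors.2 ⟨(mul_dvd_mul_left u0 (dvd_pow_self r0 two_ne_zero)).trans this, hD.ne'⟩
  have hco : (NN g U d L γ Num (u0 * r0)).coeff (Num u0 s1 r0).natDegree ≠ 0 := by
    have h1 : NN g U d L γ Num (u0 * r0) =
        ∑ s ∈ range (d + 1) with s < r0, C (g r0 * γ u0 s) * Num u0 s r0 := by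
      unfold NN
      have hm0 : r0 ∈ (Icc 1 L).filter fun t => u0 * t = u0 * r0 :=
        mem_filter.2 ⟨mem_Icc.2 ⟨by omega, hrL⟩, rfl⟩
      rw [sum_eq_single_of_mem u0 hu0, sum_eq_single_of_mem r0 hm0]
      · intro t ht hne
        exact absurd (ray hU hr hY hL2 hu0 (mem_filter.1 ht).1 (mem_filter.1 ht).2).1 hne
      · intro u hu hne
        exact sum_eq_zero fun t ht =>
          absurd (ray hU hr hY hL2 hu (mem_filter.1 ht).1 (mem_filter.1 ht).2).2 hne
    rw [h1, finsetSum_coeff, sum_eq_single_of_mem s1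
      (mem_filter.2 ⟨mem_range.2 hs1d, by omega⟩), coeff_C_mul]
    · exact mul_ne_zero (mul_ne_zero hg hγ1) (leadingCoeff_ne_zero.2 hN1.1)
    · intro s hs hne
      rw [coeff_C_mul]
      by_cases h0 : γ u0 s = 0
      · simp [h0]
      · have hle : s ≤ s1 := hmax s (mem_filter.2 ⟨(mem_filter.1 hs).1, h0⟩)
        have hlt : s < s1 := lt_of_le_of_ne hle hne
        have h2 := (hN u0 (hUD u0 hu0) s r0 (by omega) hrL).2.1
        have h3 : P.natDegree * (r0 - s1) < P.natDegree * (r0 - s) :=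
          Nat.mul_lt_mul_of_pos_left (by omega) hB.1
        have h4 := hN1.2.1
        rw [coeff_eq_zero_of_natDegree_lt (by omega), mul_zero]
  have hne1 : NN g U d L γ Num (u0 * r0) ≠ 0 := fun h => hco (by rw [h, coeff_zero])
  have hge := le_natDegree_of_ne_zero hco
  obtain ⟨v2, hv2, hmax2⟩ := exists_max_image
    (D.divisors.filter fun v => NN g U d L γ Num v ≠ 0)
    (fun v => (NN g U d L γ Num v).natDegree) ⟨u0 * r0, mem_filter.2 ⟨hv1, hne1⟩⟩
  have h5 := hmax2 _ (mem_filter.2 ⟨hv1, hne1⟩)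
  have h6 := hdeg v2
  have h7 := hN1.2.1
  have h8 : P.natDegree * (r0 - s1) ≤ P.natDegree * r0 := Nat.mul_le_mul_left _ (by omega)
  set m := Q.natDegree - (NN g U d L γ Num v2).natDegree with hm
  have key : ∀ v, ∃ l : ℝ, (v = v2 → l ≠ 0) ∧ (v ∈ D.divisors → Tendsto
      (fun w : ℕ => (w : ℝ) ^ m * (ev (NN g U d L γ Num v) w / ev Q w)) atTop (𝓝 l)) := by
    intro v
    by_cases h0 : NN g U d L γ Num v ≠ 0 ∧ (NN g U d L γ Num v).natDegree + m = Q.natDegree
    · obtain ⟨l, hl, ht⟩ := (hR _ Q m hQ).2 h0.1 h0.2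
      exact ⟨l, fun _ => hl, fun _ => ht⟩
    · refine ⟨0, fun h => absurd ⟨h ▸ (mem_filter.1 hv2).2, by rw [h]; omega⟩ h0, fun hv => ?_⟩
      refine (hR _ Q m hQ).1 ?_
      by_cases h9 : NN g U d L γ Num v = 0
      · exact Or.inl h9
      · right
        have h10 := hmax2 v (mem_filter.2 ⟨hv, h9⟩)
        have h11 : (NN g U d L γ Num v).natDegree + m ≠ Q.natDegree := fun h => h0 ⟨h9, h⟩
        omega
  choose l hl using key
  refine ⟨m, l, by omega, ⟨v2, (mem_filter.1 hv2).1, (hl v2).1 rfl⟩, fun v hv => ?_⟩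
  simp only [heta]
  exact (hl v).2 hv

end Pool.Agent.Lib.FAC
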