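import Pool.Agent.Lib.FAC.Blue

/-! A common denominator for the window products. -/

open Finset Filter Polynomial

set_option linter.unusedVariables false

noncomputable section

namespace Pool.Agent.Lib.FAC

namespace POLY

/-- The base polynomial along the progression `D / u * w + i`. -/
def F (P : ℤ[X]) (D : ℕ) (p : ℕ × ℕ) : ℤ[X] :=
  P.comp (C ((D / p.1 : ℕ) : ℤ) * X + C (p.2 : ℤ))

lemma ev_F (P : ℤ[X]) (D : ℕ) (p : ℕ × ℕ) (w : ℕ) :
    ev (F P D p) w = ev P (D / p.1 * w + p.2) := by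
  unfold ev F
  rw [eval_comp, eval_add, eval_mul, eval_C, eval_C, eval_X, Nat.cast_add, Nat.cast_mul]

lemma deg_F (P : ℤ[X]) (D : ℕ) (p : ℕ × ℕ) (hp : p.1 ∈ D.divisors) :
    (F P D p).natDegree = P.natDegree := by
  have h : ((D / p.1 : ℕ) : ℤ) ≠ 0 := by
    have h1 := Nat.dvd_of_mem_divisors hp
    have h2 : 0 < D := Nat.pos_of_ne_zero (Nat.mem_divisors.1 hp).2
    have h3 : 0 < D / p.1 := Nat.div_pos (Nat.le_of_dvd h2 h1) (Nat.pos_of_mem_divisors hp)
    exact_mod_cast h3.ne'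
  unfold F
  rw [natDegree_comp, natDegree_linear h, mul_one]

lemma F_ne (P : ℤ[X]) (hP : Base P) (D : ℕ) (p : ℕ × ℕ) (hp : p.1 ∈ D.divisors) :
    F P D p ≠ 0 := by
  intro h
  have h1 := deg_F P D p hp
  rw [h, natDegree_zero] at h1
  exact absurd hP.1 (by omega)

lemma ev_prod (s : Finset (ℕ × ℕ)) (f : ℕ × ℕ → ℤ[X]) (w : ℕ) :
    ev (∏ p ∈ s, f p) w = ∏ p ∈ s, ev (f p) w := by
  unfold ev
  rw [eval_prod, Int.cast_prod]

end POLY

open POLY in
theorem st_POLY : St_POLY := by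
  intro P D L hP hD
  classical
  set I : Finset (ℕ × ℕ) := D.divisors ×ˢ Icc 1 L with hI
  have hI1 : ∀ p ∈ I, p.1 ∈ D.divisors := fun p hp => (mem_product.1 hp).1
  have hI2 : ∀ p ∈ I, 1 ≤ p.2 := fun p hp => (mem_Icc.1 (mem_product.1 hp).2).1
  have hne : ∀ s ⊆ I, ∏ p ∈ s, F P D p ≠ 0 := fun s hs =>
    prod_ne_zero_iff.2 fun p hp => F_ne P hP D p (hI1 p (hs hp))
  have hev : ∀ s ⊆ I, ∀ w, ev (∏ p ∈ s, F P D p) w ≠ 0 := fun s hs w => by
    rw [ev_prod]
    refine prod_ne_zero_iff.2 fun p hp => ?_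
    rw [ev_F]
    exact hP.2 _ (le_add_left (hI2 p (hs hp)))
  refine ⟨∏ p ∈ I, F P D p, fun u s t => ∏ p ∈ I \ ({u} ×ˢ Ioc s t), F P D p,
    hne I subset_rfl, fun u hu s t hst htL => ?_⟩
  have hsub : ({u} ×ˢ Ioc s t : Finset (ℕ × ℕ)) ⊆ I := by
    intro p hp
    rw [mem_product, mem_singleton, mem_Ioc] at hp
    rw [hI, mem_product, mem_Icc]
    exact ⟨hp.1 ▸ hu, by omega, by omega⟩
  have hsplit := prod_sdiff (f := F P D) hsub
  have hdeg : (∏ p ∈ ({u} ×ˢ Ioc s t : Finset (ℕ × ℕ)), F P D p).natDegree =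
      P.natDegree * (t - s) := by
    rw [natDegree_prod _ _ fun p hp => F_ne P hP D p (hI1 p (hsub hp)),
      sum_congr rfl fun p hp => deg_F P D p (hI1 p (hsub hp)), sum_const, card_product,
      card_singleton, Nat.card_Ioc, one_mul, smul_eq_mul, mul_comm]
  have hden : ∀ w, ev (∏ p ∈ ({u} ×ˢ Ioc s t : Finset (ℕ × ℕ)), F P D p) w =
      den P D u s t w := fun w => by
    rw [ev_prod, prod_product, prod_singleton]
    exact prod_congr rfl fun i _ => ev_F P D (u, i) w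
  refine ⟨hne _ sdiff_subset, ?_, fun w => ?_⟩
  · rw [← hsplit, natDegree_mul (hne _ sdiff_subset) (hne _ hsub), hdeg]
  · have h1 := hev _ (sdiff_subset (s := I) (t := {u} ×ˢ Ioc s t)) w
    have h2 := hev _ hsub w
    have h3 : ev (∏ p ∈ I, F P D p) w =
        ev (∏ p ∈ I \ ({u} ×ˢ Ioc s t), F P D p) w * den P D u s t w := by
      rw [← hden, ← hsplit]
      unfold ev
      rw [eval_mul, Int.cast_mul]
    rw [hden] at h2
    rw [h3]
    field_simp

end Pool.Agent.Lib.FAC
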