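import Pool.Agent.Lib.FAC.Blue

/-! Limits of rational functions along the natural numbers. -/

open Filter Polynomial
open scoped Topology

namespace Pool.Agent.Lib.FAC

namespace RAT

theorem ev_eq (P : ℤ[X]) (w : ℕ) : ev P w = (P.map (Int.castRingHom ℝ)).eval (w : ℝ) := by
  rw [ev, ← Int.cast_natCast (R := ℝ), ← eq_intCast (Int.castRingHom ℝ) (w : ℤ),
    eval_map_apply, eq_intCast]

theorem fun_eq (N Q : ℤ[X]) (m : ℕ) : (fun w : ℕ => (w : ℝ) ^ m * (ev N w / ev Q w)) =
    (fun x : ℝ => (X ^ m * N.map (Int.castRingHom ℝ)).eval x /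
      (Q.map (Int.castRingHom ℝ)).eval x) ∘ fun w : ℕ => (w : ℝ) := by
  funext w
  simp [ev_eq, mul_div_assoc]

theorem map_ne {P : ℤ[X]} (h : P ≠ 0) : P.map (Int.castRingHom ℝ) ≠ 0 :=
  (Polynomial.map_ne_zero_iff (RingHom.injective_int _)).2 h

theorem nd {N : ℤ[X]} (h : N ≠ 0) (m : ℕ) :
    (X ^ m * N.map (Int.castRingHom ℝ)).natDegree = N.natDegree + m := by
  rw [natDegree_mul (pow_ne_zero m X_ne_zero) (map_ne h), natDegree_X_pow,
    natDegree_map_eq_of_injective (RingHom.injective_int _), add_comm]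

end RAT

theorem st_RAT : St_RAT := by
  intro N Q m hQ
  have hq : (Q.map (Int.castRingHom ℝ)).natDegree = Q.natDegree :=
    natDegree_map_eq_of_injective (RingHom.injective_int _) _
  rw [RAT.fun_eq]
  refine ⟨fun h => ?_, fun hN h => ?_⟩
  · refine (div_tendsto_atTop_zero_of_degree_lt _ _ ?_).comp tendsto_natCast_atTop_atTop
    by_cases hN : N = 0
    · rw [hN, Polynomial.map_zero, mul_zero, degree_zero, bot_lt_iff_ne_bot]
      exact degree_ne_bot.2 (RAT.map_ne hQ)
    · refine degree_lt_degree ?_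
      rw [RAT.nd hN, hq]
      exact h.resolve_left hN
  · have h0 : X ^ m * N.map (Int.castRingHom ℝ) ≠ 0 :=
      mul_ne_zero (pow_ne_zero m X_ne_zero) (RAT.map_ne hN)
    refine ⟨_, div_ne_zero (leadingCoeff_ne_zero.2 h0) (leadingCoeff_ne_zero.2 (RAT.map_ne hQ)),
      (div_tendsto_atTop_leadingCoeff_div_of_degree_eq _ _ ?_).comp tendsto_natCast_atTop_atTop⟩
    rw [degree_eq_natDegree h0, degree_eq_natDegree (RAT.map_ne hQ), RAT.nd hN, hq, h]

end Pool.Agent.Lib.FAC
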