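import Pool.Agent.Lib.FAC.Blue

/-! Simultaneously small sums of reciprocals of prime factors along finitely many progressions. -/

open Finset Filter
open scoped Nat Topology

set_option linter.unusedVariables false

noncomputable section

namespace Pool.Agent.Lib.FAC

theorem st_ROUGH (hT : St_TAV) : St_ROUGH := by
  intro V α β y hy hV
  by_contra hcon
  rw [Filter.not_frequently, Filter.eventually_atTop] at hcon
  obtain ⟨J0, hJ0⟩ := hcon
  have hy0 : (0 : ℝ) < y := by exact_mod_cast hy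
  have hS : ∀ m, 0 ≤ S m := fun m => Finset.sum_nonneg fun p _ => by positivity
  have h1 : ∀ j, J0 ≤ j → ((V.card : ℝ) + 1) / y ≤ ∑ v ∈ V, S (α v + β v * j) := by
    intro j hj
    have h := hJ0 j hj
    push Not at h
    obtain ⟨v, hv, h⟩ := h
    exact h.le.trans (Finset.single_le_sum (f := fun v => S (α v + β v * j))
      (fun v _ => hS _) hv)
  set B : ℝ := ∑ v ∈ V, 2 * √((α v : ℝ) + β v) with hB
  have hB0 : 0 ≤ B := Finset.sum_nonneg fun v _ => by positivity
  obtain ⟨T, hT1⟩ := exists_nat_gt (J0 * ((V.card : ℝ) + 1) + y * B + J0 + 1)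
  have hc0 : (0 : ℝ) ≤ J0 * ((V.card : ℝ) + 1) := by positivity
  have hyB : 0 ≤ y * B := by positivity
  have hJ : (0 : ℝ) ≤ J0 := by positivity
  have hT2 : (1 : ℝ) ≤ T := by linarith
  have hT3 : J0 ≤ T ^ 2 := by
    have : (J0 : ℝ) ≤ (T : ℝ) ^ 2 := by nlinarith
    exact_mod_cast this
  have h2 : (((T ^ 2 : ℕ) : ℝ) - J0) * (((V.card : ℝ) + 1) / y) ≤
      ∑ j ∈ range (T ^ 2), ∑ v ∈ V, S (α v + β v * j) := by
    calc (((T ^ 2 : ℕ) : ℝ) - J0) * (((V.card : ℝ) + 1) / y)
        = ∑ j ∈ Ico J0 (T ^ 2), ((V.card : ℝ) + 1) / y := by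
          rw [Finset.sum_const, Nat.card_Ico, nsmul_eq_mul, Nat.cast_sub hT3]
      _ ≤ ∑ j ∈ Ico J0 (T ^ 2), ∑ v ∈ V, S (α v + β v * j) :=
          Finset.sum_le_sum fun j hj => h1 j (Finset.mem_Ico.1 hj).1
      _ ≤ _ := by
          apply Finset.sum_le_sum_of_subset_of_nonneg
          · intro j hj
            exact Finset.mem_range.2 (Finset.mem_Ico.1 hj).2
          · intro j _ _
            exact Finset.sum_nonneg fun v _ => hS _
  have h3 : ∑ j ∈ range (T ^ 2), ∑ v ∈ V, S (α v + β v * j) ≤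
      V.card * (((T ^ 2 : ℕ) : ℝ) / y) + T * B := by
    rw [Finset.sum_comm, hB, Finset.mul_sum, ← nsmul_eq_mul, ← Finset.sum_const,
      ← Finset.sum_add_distrib]
    refine Finset.sum_le_sum fun v hv => ?_
    obtain ⟨ha, hc, hp⟩ := hV v hv
    refine (hT (α v) (β v) y (T ^ 2) hy ha hc hp).trans ?_
    have h4 : √((α v : ℝ) + β v * ((T ^ 2 : ℕ) : ℝ)) ≤ T * √((α v : ℝ) + β v) := by
      rw [← Real.sqrt_sq (by positivity : (0 : ℝ) ≤ T), ← Real.sqrt_mul (by positivity)]
      apply Real.sqrt_le_sqrt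
      push_cast
      have : (1 : ℝ) ≤ (T : ℝ) ^ 2 := by nlinarith
      have h5 : (0 : ℝ) ≤ α v := by positivity
      nlinarith
    linarith
  have h6 := h2.trans h3
  push_cast at h6
  have h7 : ((T : ℝ) ^ 2 - J0) * ((V.card : ℝ) + 1) ≤ V.card * (T : ℝ) ^ 2 + T * (y * B) := by
    have := mul_le_mul_of_nonneg_right h6 hy0.le
    calc _ = ((T : ℝ) ^ 2 - J0) * (((V.card : ℝ) + 1) / y) * y := by field_simp
      _ ≤ _ := this
      _ = _ := by field_simp
  nlinarith

end Pool.Agent.Lib.FAC
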