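import Pool.Agent.Lib.FAC.Blue

open Finset Filter Polynomial
open scoped Nat Topology

noncomputable section

namespace Pool.Agent.Lib.FAC

namespace SIZE

theorem G_mul {g : ℕ → ℤ} {k C : ℕ} (h : Good g k C) {a b : ℕ} (hab : a.Coprime b) :
    G g k (a * b) = G g k a * G g k b := by
  unfold G
  rw [h.mul a b hab]
  push_cast
  rw [mul_pow, mul_div_mul_comm]

theorem S_mul {a b : ℕ} (hab : a.Coprime b) : S (a * b) = S a + S b := by
  unfold S
  rw [hab.primeFactors_mul, sum_union hab.disjoint_primeFactors]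

theorem G_pp {g : ℕ → ℤ} {k C : ℕ} (h : Good g k C) {p a : ℕ} (hp : p.Prime) (ha : 0 < a) :
    |G g k (p ^ a) - 1| ≤ C / p := by
  have h1 := h.near p a hp ha
  unfold G
  push_cast
  rwa [← pow_mul, mul_comm a k]

theorem two {g : ℕ → ℤ} {k C : ℕ} (h : Good g k C) (m : ℕ) :
    1 ≤ m → |G g k m - 1| ≤ Real.exp (C * S m) - 1 := by
  induction m using Nat.recOnPosPrimePosCoprime with
  | prime_pow p a hp ha =>
    intro _
    refine (G_pp h hp ha).trans ?_
    have h1 : S (p ^ a) = 1 / p := by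
      unfold S
      rw [Nat.primeFactors_prime_pow ha.ne' hp, sum_singleton]
    have h2 := Real.add_one_le_exp (C * S (p ^ a))
    rw [h1] at h2 ⊢
    rw [div_eq_mul_one_div]
    linarith
  | zero => intro h0; omega
  | one =>
    intro _
    simp [G, S, h.one]
  | coprime a b ha hb hab iha ihb =>
    intro _
    have h1 := iha ha.le
    have h2 := ihb hb.le
    rw [G_mul h hab, S_mul hab, mul_add, Real.exp_add]
    set x := G g k a - 1
    set y := G g k b - 1
    have e : G g k a * G g k b - 1 = x * y + x + y := by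
      simp only [x, y]
      ring
    rw [e]
    have h3 : |x * y + x + y| ≤ |x| * |y| + |x| + |y| := by
      rw [← abs_mul]
      exact (abs_add_le _ _).trans (add_le_add (abs_add_le _ _) le_rfl)
    have h4 : |x| * |y| ≤ (Real.exp (C * S a) - 1) * (Real.exp (C * S b) - 1) :=
      mul_le_mul h1 h2 (abs_nonneg _) ((abs_nonneg _).trans h1)
    nlinarith

theorem one' {g : ℕ → ℤ} {k C : ℕ} (h : Good g k C) (m : ℕ) :
    1 ≤ m → |G g k m| ≤ (m : ℝ) ^ C := by
  induction m using Nat.recOnPosPrimePosCoprime with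
  | prime_pow p a hp ha =>
    intro _
    have h1 := G_pp h hp ha
    have h2 : (2 : ℝ) ≤ p := by exact_mod_cast hp.two_le
    have h3 : (C : ℝ) / p ≤ C := div_le_self (by positivity) (by linarith)
    have h4 : (C : ℝ) + 1 ≤ 2 ^ C := by exact_mod_cast Nat.lt_two_pow_self
    have h5 : (2 : ℝ) ≤ ((p ^ a : ℕ) : ℝ) := by
      exact_mod_cast hp.two_le.trans (Nat.le_self_pow ha.ne' p)
    have h6 : (2 : ℝ) ^ C ≤ ((p ^ a : ℕ) : ℝ) ^ C := pow_le_pow_left₀ (by norm_num) h5 C
    have h7 : |G g k (p ^ a)| ≤ |G g k (p ^ a) - 1| + 1 := by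
      have := abs_add_le (G g k (p ^ a) - 1) 1
      simpa using this
    linarith
  | zero => intro h0; omega
  | one =>
    intro _
    simp [G, h.one]
  | coprime a b ha hb hab iha ihb =>
    intro _
    rw [G_mul h hab, abs_mul]
    push_cast
    rw [mul_pow]
    exact mul_le_mul (iha ha.le) (ihb hb.le) (abs_nonneg _) (by positivity)

end SIZE

theorem st_SIZE : St_SIZE := by
  intro g k C h
  refine ⟨fun n hn => ?_, SIZE.two h⟩
  have h1 := SIZE.one' h n hn
  have h2 : (0 : ℝ) < (n : ℝ) ^ k := by positivity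
  unfold G at h1
  rw [abs_div, abs_of_pos h2, div_le_iff₀ h2] at h1
  rw [pow_add, mul_comm]
  exact h1

end Pool.Agent.Lib.FAC
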