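import Pool.Agent.Lib.FAC.Blue

/-! The asymptotic linear relation. -/

open Finset Filter Polynomial
open scoped Nat Topology

set_option linter.unusedVariables false

noncomputable section

namespace Pool.Agent.Lib.FAC

open Pool.Agent.Lib.ESC (Comb)

namespace STAR

theorem ratio (a : ℕ) : Tendsto (fun w : ℕ => ((a * w + 1 : ℕ) : ℝ) / w) atTop (𝓝 a) := by
  have h : Tendsto (fun w : ℕ => (a : ℝ) + 1 / (w : ℝ)) atTop (𝓝 (a + 0)) :=
    tendsto_const_nhds.add tendsto_one_div_atTop_nhds_zero_nat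
  rw [add_zero] at h
  refine h.congr' ?_
  filter_upwards [eventually_gt_atTop 0] with w hw
  have : (w : ℝ) ≠ 0 := by positivity
  push_cast; field_simp

theorem small (e x : ℕ → ℝ) (a c : ℕ) (he : Tendsto (fun w : ℕ => (w : ℝ) ^ c * e w) atTop (𝓝 0))
    (hx : ∀ w, |x w| ≤ ((a * w + 1 : ℕ) : ℝ) ^ c) : Tendsto (fun w => e w * x w) atTop (𝓝 0) := by
  have h1 := (he.mul ((ratio a).pow c)).abs
  rw [zero_mul, abs_zero] at h1
  refine squeeze_zero_norm' ?_ h1
  filter_upwards [eventually_gt_atTop 0] with w hw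
  have hw' : (w : ℝ) ≠ 0 := by positivity
  have h2 : (w : ℝ) ^ c * e w * (((a * w + 1 : ℕ) : ℝ) / w) ^ c =
      e w * ((a * w + 1 : ℕ) : ℝ) ^ c := by
    rw [div_pow]; field_simp
  rw [h2, Real.norm_eq_abs, abs_mul, abs_mul]
  exact mul_le_mul_of_nonneg_left ((hx w).trans (le_abs_self _)) (abs_nonneg _)

theorem int_zero (I : ℕ → ℝ) (q : ℕ) (hq : 0 < q) (hI : ∀ w, ∃ z : ℤ, q * I w = z)
    (h : Tendsto I atTop (𝓝 0)) : ∀ᶠ w in atTop, I w = 0 := by
  have h1 : Tendsto (fun w => |q * I w|) atTop (𝓝 0) := by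
    simpa using (h.const_mul (q : ℝ)).abs
  filter_upwards [h1.eventually (gt_mem_nhds one_pos)] with w hw
  obtain ⟨z, hz⟩ := hI w
  rw [hz] at hw
  have h2 : z = 0 := by
    have : |z| < 1 := by exact_mod_cast hw
    exact Int.abs_lt_one_iff.1 this
  have hq' : (q : ℝ) ≠ 0 := by positivity
  rw [h2, Int.cast_zero] at hz
  exact (mul_eq_zero.1 hz).resolve_left hq'

end STAR

open STAR

theorem st_STAR (hC : ESC.St_COMB) (hZ : St_SIZE) (hE : St_EXP) (hL : St_LIN) (hD : St_LEAD)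
    (hT : St_TEND) : St_STAR := by
  intro g k C P r hg hP hr
  set c := k + C with hc
  set Y := 13 * (c + 1) + 27 with hY
  set d := 12 * (c + 1) with hd
  obtain ⟨D, U, hU, -⟩ := hC Y (by omega)
  obtain ⟨r0, hr0, h1, h2⟩ := Nat.exists_prime_lt_and_le_two_mul Y (by omega)
  set L := r0 + 13 * (c + 1) with hLdef
  have hD0 : 0 < D := lt_of_lt_of_le (by norm_num) hU.big
  have hUD : ∀ u ∈ U, u ∈ D.divisors := fun u hu =>
    Nat.mem_divisors.2 ⟨by simpa using hU.dvd u hu 1 le_rfl (by omega), hD0.ne'⟩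
  have hg0 : g r0 ≠ 0 := by
    intro h0
    have h3 := hg.near r0 1 hr0 le_rfl
    rw [pow_one, h0] at h3
    have h4 : (0 : ℝ) < r0 := by exact_mod_cast hr0.pos
    have h5 : (C : ℝ) < r0 := by exact_mod_cast (by omega : C < r0)
    have h6 : (C : ℝ) / r0 < 1 := (div_lt_one h4).2 h5
    norm_num at h3
    linarith
  obtain ⟨γ, hγ, hlin⟩ := hL g P c Y D U L hP hU (by omega)
  obtain ⟨m, l, hm, ⟨v1, hv1, hl1⟩, hlead⟩ := hD g P Y D U d L r0 γ hP hU hr0 h1 (by omega)
    (by omega) (by omega) (by omega) hg0 hγ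
  have hexp := fun w => hE g k C P c r hg hP hr Y D U (by omega) hU d L γ w (by omega) (by omega)
  have htail : ∀ m', m' ≤ P.natDegree * r0 → Tendsto (fun w : ℕ => ∑ u ∈ U, ∑ s ∈ range (d + 1),
      (γ u s : ℝ) * ((w : ℝ) ^ m' * (r (D / u * w + L) / den P D u s L w))) atTop (𝓝 0) := by
    intro m' hm'
    have : Tendsto (fun w : ℕ => ∑ u ∈ U, ∑ s ∈ range (d + 1),
        (γ u s : ℝ) * ((w : ℝ) ^ m' * (r (D / u * w + L) / den P D u s L w))) atTop
        (𝓝 (∑ u ∈ U, ∑ s ∈ range (d + 1), (γ u s : ℝ) * 0)) := by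
      refine tendsto_finsetSum _ fun u hu => tendsto_finsetSum _ fun s hs => ?_
      have hs' : s < d + 1 := mem_range.1 hs
      refine (hT g P c r D u s L m' hP hr (hUD u hu) (by omega) ?_).const_mul _
      have h3 : P.natDegree * (r0 + (c + 1)) ≤ P.natDegree * (L - s) :=
        Nat.mul_le_mul_left _ (by omega)
      have h4 : 1 * (c + 1) ≤ P.natDegree * (c + 1) := Nat.mul_le_mul_right _ hP.1
      rw [mul_add] at h3
      omega
    simpa using this
  obtain ⟨q, hq, hint⟩ := hr.int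
  have hI : ∀ᶠ w in atTop, ∑ u ∈ U, ∑ s ∈ range (d + 1), (γ u s : ℝ) * r (D / u * w + s) = 0 := by
    refine int_zero _ q hq (fun w => ?_) ?_
    · choose z hz using hint
      refine ⟨∑ u ∈ U, ∑ s ∈ range (d + 1), γ u s * z (D / u * w + s), ?_⟩
      push_cast
      simp only [mul_sum, ← hz]
      exact sum_congr rfl fun u _ => sum_congr rfl fun s _ => by ring
    · have h3 : Tendsto (fun w : ℕ => ∑ v ∈ D.divisors,
          eta g P D U d L γ v w * g (D / v * w + 1)) atTop (𝓝 (∑ v ∈ D.divisors, 0)) :=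
        tendsto_finsetSum _ fun v _ => small _ _ (D / v) c (hlin v)
          fun w => (hZ g k C hg).1 _ (by omega)
      have h4 := h3.add (htail 0 (Nat.zero_le _))
      simp only [sum_const_zero, add_zero, pow_zero, one_mul] at h4
      exact h4.congr fun w => (hexp w).symm
  refine ⟨D, fun v w => (w : ℝ) ^ m * eta g P D U d L γ v w *
    (((D / v * w + 1 : ℕ) : ℝ) / w) ^ k, fun v => l v * ((D / v : ℕ) : ℝ) ^ k,
    ⟨v1, hv1, mul_ne_zero hl1 (pow_ne_zero _ ?_)⟩,
    fun v hv => (hlead v hv).mul ((ratio (D / v)).pow k), ?_⟩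
  · have := Nat.div_pos (Nat.divisor_le hv1) (Nat.pos_of_mem_divisors hv1)
    positivity
  · have h3 := (htail m hm).abs
    rw [abs_zero] at h3
    refine squeeze_zero_norm' ?_ h3
    filter_upwards [hI, eventually_gt_atTop 0] with w hw hw0
    have hw1 : (1 : ℝ) ≤ w := by exact_mod_cast hw0
    have hw' : (w : ℝ) ≠ 0 := by positivity
    have h4 := hexp w
    rw [hw] at h4
    have h5 : ∑ v ∈ D.divisors, (w : ℝ) ^ m * eta g P D U d L γ v w *
        (((D / v * w + 1 : ℕ) : ℝ) / w) ^ k * G g k (D / v * w + 1) =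
        (w : ℝ) ^ m * (∑ v ∈ D.divisors, eta g P D U d L γ v w * g (D / v * w + 1)) /
          (w : ℝ) ^ k := by
      rw [mul_sum, sum_div]
      refine sum_congr rfl fun v _ => ?_
      have : ((D / v * w + 1 : ℕ) : ℝ) ≠ 0 := by positivity
      unfold G
      rw [div_pow]; field_simp
    have h6 : (w : ℝ) ^ m * (∑ v ∈ D.divisors, eta g P D U d L γ v w * g (D / v * w + 1)) =
        -∑ u ∈ U, ∑ s ∈ range (d + 1),
          (γ u s : ℝ) * ((w : ℝ) ^ m * (r (D / u * w + L) / den P D u s L w)) := by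
      rw [eq_neg_of_add_eq_zero_left h4.symm, mul_neg]
      simp only [mul_sum]
      exact congrArg _ (sum_congr rfl fun u _ => sum_congr rfl fun s _ => by ring)
    rw [h5, h6, Real.norm_eq_abs, abs_div, abs_neg]
    exact div_le_self (abs_nonneg _) ((one_le_pow₀ hw1).trans (le_abs_self _))

end Pool.Agent.Lib.FAC
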