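import Pool.Agent.Lib.FAC.Blue

open Finset Filter Polynomial
open scoped Nat Topology

set_option linter.unusedVariables false

noncomputable section

namespace Pool.Agent.Lib.FAC

namespace TAIL

lemma two_le {P : ℤ[X]} (h : 0 < P.natDegree) : ∃ n0 : ℕ, ∀ n, n0 ≤ n → 2 ≤ |ev P n| := by
  have h1 : 0 < (P.map (Int.castRingHom ℝ)).degree := by
    rw [degree_map_eq_of_injective (Int.castRingHom ℝ).injective_int]
    exact natDegree_pos_iff_degree_pos.1 h
  have h2 := ((abs_tendsto_atTop _ h1).comp tendsto_natCast_atTop_atTop).eventually_ge_atTop 2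
  refine eventually_atTop.1 (h2.mono fun n hn => ?_)
  have e : ev P n = eval (n : ℝ) (P.map (Int.castRingHom ℝ)) := by
    rw [eval_natCast_map]
    rfl
  rwa [e]

lemma summ (c : ℕ) : Summable fun j : ℕ => ((j : ℝ) + 1) ^ c / 2 ^ (j + 1) := by
  have h := (summable_nat_add_iff 1).2
    (summable_pow_mul_geometric_of_norm_lt_one (R := ℝ) c (r := 1 / 2) (by norm_num))
  refine h.congr fun j => ?_
  rw [one_div_pow, Nat.cast_succ, mul_one_div]

end TAIL

open TAIL in
theorem st_TAIL : St_TAIL := by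
  intro g P c hB hg hS
  obtain ⟨n0, h2⟩ := two_le hB.1
  set Q : ℕ → ℝ := fun M => ∏ i ∈ Icc 1 M, ev P i with hQ
  have Qne : ∀ M, Q M ≠ 0 := fun M => prod_ne_zero_iff.2 fun i hi => hB.2 i (mem_Icc.1 hi).1
  have Qsucc : ∀ M, Q (M + 1) = Q M * ev P (M + 1) := fun M =>
    prod_Icc_succ_top (Nat.le_add_left 1 M) _
  have Qgrow : ∀ M, n0 ≤ M → ∀ j, |Q M| * 2 ^ (j + 1) ≤ |Q (j + (M + 1))| := by
    intro M hM j
    induction j with
    | zero =>
      rw [zero_add, zero_add, Qsucc, pow_one, abs_mul]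
      exact mul_le_mul_of_nonneg_left (h2 _ (by omega)) (abs_nonneg _)
    | succ j ih =>
      rw [show j + 1 + (M + 1) = j + (M + 1) + 1 by omega, Qsucc, pow_succ, ← mul_assoc, abs_mul]
      exact mul_le_mul ih (h2 _ (by omega)) (by norm_num) (abs_nonneg _)
  set t : ℕ → ℝ := fun n => (g n : ℝ) / Q n with ht
  have tle : ∀ M, n0 ≤ M → ∀ j, ‖Q M * t (j + (M + 1))‖ ≤
      ((M : ℝ) + 1) ^ c * (((j : ℝ) + 1) ^ c / 2 ^ (j + 1)) := by
    intro M hM j
    have h3 : |(g (j + (M + 1)) : ℝ)| ≤ ((M : ℝ) + 1) ^ c * ((j : ℝ) + 1) ^ c := by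
      refine (hg _ (by omega)).trans ?_
      rw [← mul_pow]
      refine pow_le_pow_left₀ (by positivity) ?_ _
      push_cast
      nlinarith [mul_nonneg (Nat.cast_nonneg M : (0 : ℝ) ≤ M) (Nat.cast_nonneg j : (0 : ℝ) ≤ j)]
    simp only [ht]
    rw [Real.norm_eq_abs, abs_mul, abs_div, ← mul_div_assoc, ← mul_div_assoc,
      div_le_div_iff₀ (abs_pos.2 (Qne _)) (by positivity)]
    calc |Q M| * |(g (j + (M + 1)) : ℝ)| * 2 ^ (j + 1)
        = |(g (j + (M + 1)) : ℝ)| * (|Q M| * 2 ^ (j + 1)) := by ring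
      _ ≤ _ := mul_le_mul h3 (Qgrow M hM j) (by positivity) (by positivity)
  have hs0 : Summable fun j => Q n0 * t (j + (n0 + 1)) :=
    Summable.of_norm_bounded ((summ c).mul_left _) (tle n0 le_rfl)
  have hs : Summable t :=
    (summable_nat_add_iff (n0 + 1)).1 ((summable_mul_left_iff (Qne n0)).1 hs0)
  have hsM : ∀ M, Summable fun j => t (j + M) := fun M => (summable_nat_add_iff M).2 hs
  set T : ℕ → ℝ := fun M => Q M * ∑' j, t (j + (M + 1)) with hT
  have Trec : ∀ M, T M * ev P (M + 1) = g (M + 1) + T (M + 1) := by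
    intro M
    have e := (hsM (M + 1)).tsum_eq_zero_add
    have e' : (fun j => t (j + 1 + (M + 1))) = fun j => t (j + (M + 1 + 1)) := by
      funext j
      rw [show j + 1 + (M + 1) = j + (M + 1 + 1) by omega]
    rw [e', zero_add] at e
    simp only [hT]
    rw [e, mul_right_comm, ← Qsucc, mul_add]
    simp only [ht]
    rw [mul_div_cancel₀ _ (Qne _)]
  have T0 : ∑' n, t n = g 0 + T 0 := by
    rw [hs.tsum_eq_zero_add]
    simp [hT, ht, hQ]
  obtain ⟨x, hx⟩ : ∃ x : ℚ, (x : ℝ) = ∑' n, t n := by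
    simpa [Irrational] using hS
  refine ⟨T, ⟨x.den, x.den_pos, fun M => ?_⟩, Trec,
    ∑' j : ℕ, ((j : ℝ) + 1) ^ c / 2 ^ (j + 1), eventually_atTop.2 ⟨n0, fun M hM => ?_⟩⟩
  · induction M with
    | zero =>
      refine ⟨x.num - x.den * g 0, ?_⟩
      have e : (x.den : ℝ) * x = x.num := by exact_mod_cast Rat.den_mul_eq_num x
      push_cast
      rw [← e, hx, T0]
      ring
    | succ M ih =>
      obtain ⟨z, hz⟩ := ih
      refine ⟨z * P.eval ((M + 1 : ℕ) : ℤ) - x.den * g (M + 1), ?_⟩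
      have e := Trec M
      rw [Int.cast_sub, Int.cast_mul, Int.cast_mul, ← hz, mul_assoc, ← ev, e, Int.cast_natCast]
      ring
  · simp only [hT]
    rw [← tsum_mul_left, mul_comm, ← tsum_mul_left, ← Real.norm_eq_abs]
    exact tsum_of_norm_bounded ((summ c).mul_left _).hasSum (tle M hM)

end Pool.Agent.Lib.FAC
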