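import Pool.Agent.Lib.FAC.Blue
import Pool.Agent.Lib.ESC.B_TAV

/-! The average of the sums of reciprocals of prime factors along a rough progression. -/

open Finset

namespace Pool.Agent.Lib.FAC

namespace TAV

theorem cnt {α β : ℕ} (h0 : α.Coprime β) (M d : ℕ) :
    (((range M).filter fun k => d ∣ α + β * k).card : ℝ) ≤ (M : ℝ) / d + 1 := by
  have h1 : ((range M).filter fun k => d ∣ α + β * k).card ≤ (range (M / d + 1)).card := by
    refine card_le_card_of_injOn (fun k => k / d) (fun k hk => ?_) fun k hk k' hk' h => ?_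
    · have := mem_range.1 (mem_filter.1 (mem_coe.1 hk)).1
      exact mem_coe.2 (mem_range.2 (Nat.lt_succ_of_le (Nat.div_le_div_right this.le)))
    · have h2 := (mem_filter.1 (mem_coe.1 hk)).2
      have h3 := (mem_filter.1 (mem_coe.1 hk')).2
      have hc : Nat.gcd d β = 1 :=
        Nat.Coprime.coprime_dvd_left h2 ((Nat.coprime_add_mul_left_left α β k).2 h0)
      have h4 : α + β * k ≡ α + β * k' [MOD d] :=
        ((Nat.modEq_zero_iff_dvd).2 h2).trans ((Nat.modEq_zero_iff_dvd).2 h3).symm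
      have h5 : k ≡ k' [MOD d] :=
        Nat.ModEq.cancel_left_of_coprime hc (Nat.ModEq.add_left_cancel' α h4)
      have h6 : k / d = k' / d := h
      rw [← Nat.div_add_mod k d, ← Nat.div_add_mod k' d, h6, show k % d = k' % d from h5]
  rw [card_range] at h1
  have h2 : (((range M).filter fun k => d ∣ α + β * k).card : ℝ) ≤ ((M / d + 1 : ℕ) : ℝ) :=
    Nat.cast_le.2 h1
  rw [Nat.cast_add, Nat.cast_one] at h2
  linarith [Nat.cast_div_le (α := ℝ) (m := M) (n := d)]

end TAV

theorem st_TAV : St_TAV := by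
  intro α β y M hy hα h0 hp
  have h1 : ∀ k ∈ range M, S (α + β * k) ≤
      ∑ d ∈ Ioc y (α + β * M), if d ∣ α + β * k then (1 : ℝ) / d else 0 := fun k hk => by
    rw [← sum_filter, S]
    refine sum_le_sum_of_subset_of_nonneg (fun d hd => ?_) fun d _ _ => by positivity
    have h2 := Nat.prime_of_mem_primeFactors hd
    have h4 := Nat.dvd_of_mem_primeFactors hd
    refine mem_filter.2 ⟨mem_Ioc.2 ⟨not_le.1 fun h3 => ?_,
      (Nat.le_of_dvd (Nat.add_pos_left hα _) h4).trans ?_⟩, h4⟩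
    · have h5 := hp d h2 h3
      exact h2.one_lt.ne' (Nat.eq_one_of_dvd_coprimes h0
        ((Nat.dvd_add_left (h5.mul_right k)).1 h4) h5)
    · exact Nat.add_le_add_left (Nat.mul_le_mul_left β (mem_range.1 hk).le) α
  refine (sum_le_sum h1).trans ?_
  rw [sum_comm]
  have h2 : ∀ d ∈ Ioc y (α + β * M), (∑ k ∈ range M, if d ∣ α + β * k then (1 : ℝ) / d else 0) ≤
      M * ((d : ℝ) ^ 2)⁻¹ + 1 / d := fun d hd => by
    have hd0 : (0 : ℝ) < d := Nat.cast_pos.2 (hy.trans (mem_Ioc.1 hd).1)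
    rw [← sum_filter, sum_const, nsmul_eq_mul]
    refine (mul_le_mul_of_nonneg_right (TAV.cnt h0 M d) (by positivity)).trans (le_of_eq ?_)
    field_simp
  refine (sum_le_sum h2).trans ?_
  rw [sum_add_distrib, ← mul_sum]
  have h3 := mul_le_mul_of_nonneg_left (ESC.TAV.sq_le hy (α + β * M)) (Nat.cast_nonneg (α := ℝ) M)
  have h4 : ∑ d ∈ Ioc y (α + β * M), (1 : ℝ) / d ≤ ∑ d ∈ Ioc 0 (α + β * M), (1 : ℝ) / d :=
    sum_le_sum_of_subset_of_nonneg (Ioc_subset_Ioc_left (Nat.zero_le y)) fun d _ _ => by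
      positivity
  have h5 := ESC.TAV.harm (α + β * M)
  rw [div_eq_mul_inv (M : ℝ)]
  push_cast at h5
  linarith

end Pool.Agent.Lib.FAC
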