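import Pool.Agent.Lib.FAC.Blue

/-! The tails are of lower order. -/

open Finset Filter Polynomial
open scoped Nat Topology

set_option linter.unusedVariables false

noncomputable section

namespace Pool.Agent.Lib.FAC

theorem st_TEND (hR : St_RAT) (hP : St_POLY) : St_TEND := by
  intro g P c r D u s L m hB hT hu hs hm
  have hD : 0 < D := Nat.pos_of_ne_zero (Nat.mem_divisors.1 hu).2
  have h1 : 1 ≤ D / u := Nat.div_pos (Nat.divisor_le hu) (Nat.pos_of_mem_divisors hu)
  obtain ⟨Q, Num, hQ, h⟩ := hP P D L hB hD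
  obtain ⟨-, h2, h3⟩ := h u hu s L hs le_rfl
  obtain ⟨B, hb⟩ := hT.le
  let A : ℤ[X] := C ((D / u : ℕ) : ℤ) * X + C ((L : ℤ) + 1)
  have hA : (A ^ c * Num u s L).natDegree + m < Q.natDegree := by
    have h4 : (A ^ c * Num u s L).natDegree ≤ c * 1 + (Num u s L).natDegree :=
      natDegree_mul_le.trans
        (Nat.add_le_add_right (natDegree_pow_le_of_le c natDegree_linear_le) _)
    omega
  have h5 := ((hR _ Q m hQ).1 (Or.inr hA)).abs.const_mul |B|
  rw [abs_zero, mul_zero] at h5
  have h6 : Tendsto (fun w : ℕ => D / u * w + L) atTop atTop :=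
    tendsto_atTop_mono (fun w => by
      have := Nat.le_mul_of_pos_left w h1
      simp only [id]
      omega) tendsto_id
  refine squeeze_zero_norm' ((h6.eventually hb).mono fun w hw => ?_) h5
  have e : ev (A ^ c * Num u s L) w = (((D / u * w + L : ℕ) : ℝ) + 1) ^ c * ev (Num u s L) w := by
    simp only [ev, A, eval_mul, eval_pow, eval_add, eval_C, eval_X, Int.cast_mul, Int.cast_pow,
      Int.cast_add, Int.cast_natCast, Int.cast_one, Nat.cast_add, Nat.cast_mul, add_assoc]
  have h7 : (0 : ℝ) ≤ (((D / u * w + L : ℕ) : ℝ) + 1) ^ c := by positivity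
  have h8 := hw.trans (mul_le_mul_of_nonneg_right (le_abs_self B) h7)
  rw [Real.norm_eq_abs, div_eq_mul_one_div, h3, e, mul_div_assoc, abs_mul, abs_mul, abs_mul,
    abs_mul, abs_of_nonneg h7, mul_left_comm |B|, ← mul_assoc |B|]
  exact mul_le_mul_of_nonneg_left (mul_le_mul_of_nonneg_right h8 (abs_nonneg _)) (abs_nonneg _)

end Pool.Agent.Lib.FAC
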