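import Pool.Agent.Lib.ESC.Blue

/-! Polynomial Cantor series with multiplicative numerators: definitions and steps. -/

open Finset Filter Polynomial
open scoped Nat Topology

set_option linter.unusedVariables false

noncomputable section

namespace Pool.Agent.Lib.FAC

open Pool.Agent.Lib.ESC (Comb)

/-- A multiplicative function that is close to `n ^ k` on prime powers. -/
structure Good (g : ℕ → ℤ) (k C : ℕ) : Prop where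
  one : g 1 = 1
  mul : ∀ m n : ℕ, m.Coprime n → g (m * n) = g m * g n
  near : ∀ p a : ℕ, p.Prime → 1 ≤ a → |(g (p ^ a) : ℝ) / (p : ℝ) ^ (k * a) - 1| ≤ C / p

/-- The normalised function. -/
def G (g : ℕ → ℤ) (k m : ℕ) : ℝ := (g m : ℝ) / (m : ℝ) ^ k

/-- The sum of the reciprocals of the prime factors. -/
def S (m : ℕ) : ℝ := ∑ p ∈ m.primeFactors, (1 : ℝ) / p

/-- The real value of an integer polynomial at a natural number. -/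
def ev (P : ℤ[X]) (w : ℕ) : ℝ := ((P.eval (w : ℤ) : ℤ) : ℝ)

/-- A nonconstant polynomial without positive integer roots. -/
def Base (P : ℤ[X]) : Prop := 0 < P.natDegree ∧ ∀ n : ℕ, 1 ≤ n → ev P n ≠ 0

/-- A partial product of bases in the window that starts at `D / u * w`. -/
def den (P : ℤ[X]) (D u s t w : ℕ) : ℝ := ∏ i ∈ Ioc s t, ev P (D / u * w + i)

/-- The coefficient of the value `g (D / v * w + 1)`. -/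
def eta (g : ℕ → ℤ) (P : ℤ[X]) (D : ℕ) (U : Finset ℕ) (d L : ℕ) (γ : ℕ → ℕ → ℤ) (v w : ℕ) : ℝ :=
  ∑ u ∈ U, ∑ t ∈ Icc 1 L with u * t = v, ∑ s ∈ range (d + 1) with s < t,
    (g t : ℝ) * γ u s / den P D u s t w

/-- The normalised tails of a rational series. -/
structure Tail (g : ℕ → ℤ) (P : ℤ[X]) (c : ℕ) (r : ℕ → ℝ) : Prop where
  int : ∃ q : ℕ, 0 < q ∧ ∀ M, ∃ z : ℤ, q * r M = z
  eq : ∀ M, r M * ev P (M + 1) = g (M + 1) + r (M + 1)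
  le : ∃ B : ℝ, ∀ᶠ M : ℕ in atTop, |r M| ≤ B * ((M : ℝ) + 1) ^ c

def St_SIZE : Prop := ∀ (g : ℕ → ℤ) (k C : ℕ), Good g k C →
  (∀ n : ℕ, 1 ≤ n → |(g n : ℝ)| ≤ (n : ℝ) ^ (k + C)) ∧
    ∀ m : ℕ, 1 ≤ m → |G g k m - 1| ≤ Real.exp (C * S m) - 1

def St_TAIL : Prop := ∀ (g : ℕ → ℤ) (P : ℤ[X]) (c : ℕ), Base P →
  (∀ n : ℕ, 1 ≤ n → |(g n : ℝ)| ≤ (n : ℝ) ^ c) →
  ¬ Irrational (∑' n : ℕ, (g n : ℝ) / ∏ i ∈ Icc 1 n, ev P i) → ∃ r : ℕ → ℝ, Tail g P c r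

def St_KER : Prop := ∀ (I J : Finset (ℕ × ℕ)) (A : ℕ × ℕ → ℕ × ℕ → ℤ), J.card < I.card →
  ∃ γ : ℕ × ℕ → ℤ, (∃ i ∈ I, γ i ≠ 0) ∧ ∀ j ∈ J, ∑ i ∈ I, A j i * γ i = 0

def St_RAT : Prop := ∀ (N Q : ℤ[X]) (m : ℕ), Q ≠ 0 →
  ((N = 0 ∨ N.natDegree + m < Q.natDegree) →
    Tendsto (fun w : ℕ => (w : ℝ) ^ m * (ev N w / ev Q w)) atTop (𝓝 0)) ∧
  (N ≠ 0 → N.natDegree + m = Q.natDegree →
    ∃ l : ℝ, l ≠ 0 ∧ Tendsto (fun w : ℕ => (w : ℝ) ^ m * (ev N w / ev Q w)) atTop (𝓝 l))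

def St_POLY : Prop := ∀ (P : ℤ[X]) (D L : ℕ), Base P → 0 < D →
  ∃ (Q : ℤ[X]) (Num : ℕ → ℕ → ℕ → ℤ[X]), Q ≠ 0 ∧ ∀ u ∈ D.divisors, ∀ s t, s ≤ t → t ≤ L →
    Num u s t ≠ 0 ∧ (Num u s t).natDegree + P.natDegree * (t - s) = Q.natDegree ∧
      ∀ w, 1 / den P D u s t w = ev (Num u s t) w / ev Q w

def St_EXP : Prop := ∀ (g : ℕ → ℤ) (k C : ℕ) (P : ℤ[X]) (c : ℕ) (r : ℕ → ℝ), Good g k C →
  Base P → Tail g P c r → ∀ (Y D : ℕ) (U : Finset ℕ), 1 ≤ Y → Comb Y D U →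
    ∀ (d L : ℕ) (γ : ℕ → ℕ → ℤ) (w : ℕ), d ≤ L → L ≤ 3 * Y →
      ∑ u ∈ U, ∑ s ∈ range (d + 1), γ u s * r (D / u * w + s) =
        ∑ v ∈ D.divisors, eta g P D U d L γ v w * g (D / v * w + 1) +
          ∑ u ∈ U, ∑ s ∈ range (d + 1), γ u s * (r (D / u * w + L) / den P D u s L w)

def St_LIN : Prop := ∀ (g : ℕ → ℤ) (P : ℤ[X]) (c Y D : ℕ) (U : Finset ℕ) (L : ℕ), Base P →
  Comb Y D U → 13 * (c + 1) ≤ Y → ∃ γ : ℕ → ℕ → ℤ,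
    (∃ u ∈ U, ∃ s ≤ 12 * (c + 1), γ u s ≠ 0) ∧ ∀ v, Tendsto
      (fun w : ℕ => (w : ℝ) ^ c * eta g P D U (12 * (c + 1)) L γ v w) atTop (𝓝 0)

def St_LEAD : Prop := ∀ (g : ℕ → ℤ) (P : ℤ[X]) (Y D : ℕ) (U : Finset ℕ) (d L r0 : ℕ)
  (γ : ℕ → ℕ → ℤ), Base P → Comb Y D U → r0.Prime → Y < r0 → d < r0 → r0 ≤ L → L < 2 * r0 →
  L ≤ 3 * Y → g r0 ≠ 0 → (∃ u ∈ U, ∃ s ≤ d, γ u s ≠ 0) →
    ∃ (m : ℕ) (l : ℕ → ℝ), m ≤ P.natDegree * r0 ∧ (∃ v ∈ D.divisors, l v ≠ 0) ∧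
      ∀ v ∈ D.divisors,
        Tendsto (fun w : ℕ => (w : ℝ) ^ m * eta g P D U d L γ v w) atTop (𝓝 (l v))

def St_TEND : Prop := ∀ (g : ℕ → ℤ) (P : ℤ[X]) (c : ℕ) (r : ℕ → ℝ) (D u s L m : ℕ), Base P →
  Tail g P c r → u ∈ D.divisors → s ≤ L → m + c < P.natDegree * (L - s) →
    Tendsto (fun w : ℕ => (w : ℝ) ^ m * (r (D / u * w + L) / den P D u s L w)) atTop (𝓝 0)

def St_STAR : Prop := ∀ (g : ℕ → ℤ) (k C : ℕ) (P : ℤ[X]) (r : ℕ → ℝ), Good g k C → Base P →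
  Tail g P (k + C) r → ∃ (D : ℕ) (μ : ℕ → ℕ → ℝ) (l : ℕ → ℝ), (∃ v ∈ D.divisors, l v ≠ 0) ∧
    (∀ v ∈ D.divisors, Tendsto (μ v) atTop (𝓝 (l v))) ∧
      Tendsto (fun w => ∑ v ∈ D.divisors, μ v w * G g k (D / v * w + 1)) atTop (𝓝 0)

def St_TAV : Prop := ∀ α β y J : ℕ, 0 < y → 0 < α → α.Coprime β →
  (∀ p, p.Prime → p ≤ y → p ∣ β) →
    ∑ j ∈ range J, S (α + β * j) ≤ (J : ℝ) / y + 2 * √(α + β * J)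

def St_ROUGH : Prop := ∀ (V : Finset ℕ) (α β : ℕ → ℕ) (y : ℕ), 0 < y →
  (∀ v ∈ V, 0 < α v ∧ (α v).Coprime (β v) ∧ ∀ p, p.Prime → p ≤ y → p ∣ β v) →
    ∃ᶠ j in atTop, ∀ v ∈ V, S (α v + β v * j) ≤ ((V.card : ℝ) + 1) / y

def St_CLASS : Prop := ∀ (g : ℕ → ℤ) (k C D : ℕ) (ε : ℝ), Good g k C → 0 < D → 0 < ε →
  (∃ᶠ w in atTop, ∀ v ∈ D.divisors, |G g k (D / v * w + 1) - 1| ≤ ε) ∧
    ∀ p v0, p.Prime → D < p → v0 ∈ D.divisors → ∃ᶠ w in atTop, ∀ v ∈ D.divisors,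
      |G g k (D / v * w + 1) - if v = v0 then G g k p else 1| ≤ ε

def St_IND : Prop := ∀ (g : ℕ → ℤ) (k C D : ℕ) (μ : ℕ → ℕ → ℝ) (l : ℕ → ℝ), Good g k C →
  (∀ N, ∃ p, N ≤ p ∧ p.Prime ∧ g p ≠ (p : ℤ) ^ k) →
  (∀ v ∈ D.divisors, Tendsto (μ v) atTop (𝓝 (l v))) →
  Tendsto (fun w => ∑ v ∈ D.divisors, μ v w * G g k (D / v * w + 1)) atTop (𝓝 0) →
    ∀ v ∈ D.divisors, l v = 0

def St_MAIN : Prop := ∀ (g : ℕ → ℤ) (k C : ℕ) (P : ℤ[X]), Good g k C →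
  (∀ N, ∃ p, N ≤ p ∧ p.Prime ∧ g p ≠ (p : ℤ) ^ k) → Base P →
    Irrational (∑' n : ℕ, (g n : ℝ) / ∏ i ∈ Icc 1 n, ev P i)

end Pool.Agent.Lib.FAC
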